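import Pool.Agent.H752.PG.Stubs

/-!
# P2: circuits ask short strings only
-/

namespace Pool.Agent.H752.PG

open Pool.Agent.NPC Pool.Agent.H620R2.Gauge

theorem short_val (A A' : Oracle) (m : ℕ) (h : ∀ y : List Bool, y.length ≤ m → A' y = A y)
    (ws : List Bool) (g : Gate) (hg : g.size ≤ m) : g.val A' ws = g.val A ws := by
  cases g with
  | and u v => rfl
  | or u v => rfl
  | orc l =>
    simp only [Gate.val]
    apply h
    simp only [Gate.size] at hg
    rw [List.length_map]
    omega

theorem short_foldl (A A' : Oracle) (m : ℕ) (h : ∀ y : List Bool, y.length ≤ m → A' y = A y)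
    (gs : List Gate) (hgs : ∀ g ∈ gs, g.size ≤ m) (ws : List Bool) :
    gs.foldl (fun ws g => ws ++ [g.val A' ws]) ws =
      gs.foldl (fun ws g => ws ++ [g.val A ws]) ws := by
  induction gs generalizing ws with
  | nil => rfl
  | cons g gs ih =>
    rw [List.foldl_cons, List.foldl_cons, short_val A A' m h ws g (hgs g (by simp))]
    exact ih (fun g' hg' => hgs g' (by simp [hg'])) _

theorem t_short : St_short := by
  intro C m hC A A' h x
  unfold Circuit.eval Circuit.wires
  rw [short_foldl A A' m h C.gates ?_ x]
  intro g hg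
  refine le_trans ?_ hC
  exact List.single_le_sum (fun _ _ => Nat.zero_le _) _ (List.mem_map_of_mem hg)

end Pool.Agent.H752.PG
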